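import Pool.Agent.Helper324.CEFin4
import Pool.Agent.Helper324.CELow
import Pool.Agent.Y869.CE.Omega

/-!
# Norms arbitrarily close to the Hilbert norm with critical exponent at most four
-/

open scoped InnerProductSpace ENNReal NNReal TensorProduct
open Filter Topology

namespace Pool.Agent.Y869.CE

open Pool.Agent.Helper324.CE

/-- For every `n` and `ε > 0` there is a norm `M` on `𝕜ⁿ` with the required property (exponent `4`)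
which is `(1 + ε)`-equivalent to the Euclidean norm. -/
theorem main_near (𝕜 : Type*) [RCLike 𝕜] (n : ℕ) (ε : ℝ) (hε : 0 < ε) :
    ∃ (Ω : Finset (EuclideanSpace 𝕜 (Fin n))) (c : ℝ), 0 < c ∧
      (∀ x, M 𝕜 Ω c x ≤ (1 + ε) * ‖x‖) ∧
      ∀ T : EuclideanSpace 𝕜 (Fin n) →L[𝕜] EuclideanSpace 𝕜 (Fin n),
        (∀ x, M 𝕜 Ω c (T x) ≤ M 𝕜 Ω c x) → ∀ v, M 𝕜 Ω c v = 1 → M 𝕜 Ω c ((T ^ 4) v) = 1 →
        ∀ k, 1 ≤ ‖T ^ k‖ := by
  have : FiniteDimensional ℝ (EuclideanSpace 𝕜 (Fin n)) := inferInstance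
  obtain ⟨Ω, c, s, h, hG, hs1, hsε, hsep⟩ :=
    exists_Omega8 𝕜 (EuclideanSpace 𝕜 (Fin n)) (ε / (1 + ε)) (by positivity)
  refine ⟨Ω, c, h.hc, fun x => ?_, fun T hT v hv hv4 k => h.main4 hG hs1 hsep hT hv hv4 k⟩
  have h1 : 1 - s ≤ c := by
    by_contra hcon
    push Not at hcon
    have h2 : c ^ 2 < (1 - s) ^ 2 := by
      have := h.hc
      nlinarith
    nlinarith [h.hcs, h.hs]
  have h3 : 1 ≤ (1 + ε) * c := by
    have h4 : (1 + ε) * (1 - s) ≤ (1 + ε) * c := mul_le_mul_of_nonneg_left h1 (by positivity)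
    have h5 : (1 + ε) * s ≤ ε := by
      rw [le_div_iff₀ (by positivity)] at hsε
      linarith
    linarith
  have h6 := M_le_of_norm (𝕜 := 𝕜) h.hc h.c_le_one h.unit x
  calc M 𝕜 Ω c x ≤ (1 + ε) * c * M 𝕜 Ω c x := le_mul_of_one_le_left (M_nonneg x) h3
    _ = (1 + ε) * (c * M 𝕜 Ω c x) := by ring
    _ ≤ (1 + ε) * ‖x‖ := mul_le_mul_of_nonneg_left h6 (by positivity)

/-- Complex case. -/
theorem complex_near (n : ℕ) (ε : ℝ) (hε : 0 < ε) :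
    ∃ (E : Type) (_ : NormedAddCommGroup E) (_ : NormedSpace ℂ E)
      (e : E ≃ₗ[ℂ] EuclideanSpace ℂ (Fin n)),
      (∀ x, ‖e x‖ ≤ ‖x‖ ∧ ‖x‖ ≤ (1 + ε) * ‖e x‖) ∧
      ∀ T : E →L[ℂ] E, ‖T‖ ≤ 1 → ‖T ^ 4‖ = 1 → spectralRadius ℂ T = 1 := by
  obtain ⟨Ω, c, hc, hle, hmain⟩ := main_near ℂ n ε hε
  obtain ⟨E, i1, i2, e, he⟩ := exists_normed ℂ n Ω c hc
  have hfd : FiniteDimensional ℂ E := e.symm.finiteDimensional
  have : CompleteSpace E := FiniteDimensional.complete ℂ E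
  refine ⟨E, i1, i2, e, fun x => ⟨?_, ?_⟩, ?_⟩
  · rw [he]; exact norm_le_M _
  · rw [he]; exact hle _
  · intro T hT hT4
    obtain ⟨δ, hδ, h1⟩ := transferq 4 hmain e he T hT hT4
    exact spectralRadius_eq_one T hδ h1 (norm_pow_le_one' hT)

/-- Real case. -/
theorem real_near (n : ℕ) (ε : ℝ) (hε : 0 < ε) :
    ∃ (E : Type) (_ : NormedAddCommGroup E) (_ : NormedSpace ℝ E)
      (e : E ≃ₗ[ℝ] EuclideanSpace ℝ (Fin n)),
      (∀ x, ‖e x‖ ≤ ‖x‖ ∧ ‖x‖ ≤ (1 + ε) * ‖e x‖) ∧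
      ∀ T : E →L[ℝ] E, ‖T‖ ≤ 1 → ‖T ^ 4‖ = 1 →
        spectralRadius ℂ (LinearMap.baseChange ℂ (T : E →ₗ[ℝ] E)) = 1 := by
  obtain ⟨Ω, c, hc, hle, hmain⟩ := main_near ℝ n ε hε
  obtain ⟨E, i1, i2, e, he⟩ := exists_normed ℝ n Ω c hc
  have hfd : FiniteDimensional ℝ E := e.symm.finiteDimensional
  refine ⟨E, i1, i2, e, fun x => ⟨?_, ?_⟩, ?_⟩
  · rw [he]; exact norm_le_M _
  · rw [he]; exact hle _
  · intro T hT hT4
    obtain ⟨δ, hδ, h1⟩ := transferq 4 hmain e he T hT hT4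
    exact real_radius T hT hδ h1

end Pool.Agent.Y869.CE
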